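import Pool.Agent.W216.J6.Sim

/-!
# Normalisation of the `x`-degrees
-/

set_option autoImplicit false

open MvPolynomial Pool.Agent.H938R2.JC Pool.Agent.W443.J5 Pool.Agent.W443.J6

namespace Pool.Agent.W216.J6

universe u

variable {k : Type u} [Field k]

theorem coeff_part (w0 w1 d : ℤ) (f : MvPolynomial (Fin 2) k) (m : Fin 2 →₀ ℕ) :
    coeff m (part w0 w1 d f) = if w0 * (m 0 : ℤ) + w1 * (m 1 : ℤ) = d then coeff m f else 0 := by
  classical
  unfold part
  rw [coeff_sum]
  simp only [coeff_monomial]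
  rw [Finset.sum_ite_eq']
  simp only [Finset.mem_filter, mem_support_iff]
  by_cases h1 : w0 * (m 0 : ℤ) + w1 * (m 1 : ℤ) = d
  · rw [if_pos h1]
    by_cases h2 : coeff m f = 0
    · rw [if_neg (fun h => h.1 h2), h2]
    · rw [if_pos ⟨h2, h1⟩]
  · rw [if_neg h1, if_neg (fun h => h1 h.2)]

/-- the leading coefficient in `x` -/
noncomputable def lx (B : ℕ) (f : MvPolynomial (Fin 2) k) : MvPolynomial (Fin 2) k :=
  part 1 0 B f

theorem coeff_lx (B : ℕ) (f : MvPolynomial (Fin 2) k) (m : Fin 2 →₀ ℕ) :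
    coeff m (lx B f) = if m 0 = B then coeff m f else 0 := by
  rw [lx, coeff_part]
  by_cases h : m 0 = B
  · rw [if_pos h, if_pos (by rw [h]; ring)]
  · rw [if_neg h, if_neg]
    intro h'
    apply h
    have : ((m 0 : ℕ) : ℤ) = (B : ℤ) := by linarith
    exact_mod_cast this

def LE (B : ℕ) (f : MvPolynomial (Fin 2) k) : Prop := ∀ m, coeff m f ≠ 0 → m 0 ≤ B
def LT (B : ℕ) (f : MvPolynomial (Fin 2) k) : Prop := ∀ m, coeff m f ≠ 0 → m 0 < B
def EQ (B : ℕ) (f : MvPolynomial (Fin 2) k) : Prop := ∀ m, coeff m f ≠ 0 → m 0 = B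

theorem le_deg (f : MvPolynomial (Fin 2) k) : LE (degreeOf 0 f) f := by
  intro m hm
  exact monomial_le_degreeOf 0 (mem_support_iff.2 hm)

theorem exists_mul {f g : MvPolynomial (Fin 2) k} {m : Fin 2 →₀ ℕ} (h : coeff m (f * g) ≠ 0) :
    ∃ a b, a + b = m ∧ coeff a f ≠ 0 ∧ coeff b g ≠ 0 := by
  rw [coeff_mul] at h
  obtain ⟨⟨a, b⟩, hx, hx'⟩ := Finset.exists_ne_zero_of_sum_ne_zero h
  rw [Finset.HasAntidiagonal.mem_antidiagonal] at hx
  exact ⟨a, b, hx, left_ne_zero_of_mul hx', right_ne_zero_of_mul hx'⟩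

theorem LE.mul {A B : ℕ} {f g : MvPolynomial (Fin 2) k} (hf : LE A f) (hg : LE B g) :
    LE (A + B) (f * g) := by
  intro m hm
  obtain ⟨a, b, rfl, ha, hb⟩ := exists_mul hm
  have h1 := hf a ha
  have h2 := hg b hb
  simp only [Finsupp.add_apply]
  omega

theorem LE.mul_lt {A B : ℕ} {f g : MvPolynomial (Fin 2) k} (hf : LE A f) (hg : LT B g) :
    LT (A + B) (f * g) := by
  intro m hm
  obtain ⟨a, b, rfl, ha, hb⟩ := exists_mul hm
  have h1 := hf a ha
  have h2 := hg b hb
  simp only [Finsupp.add_apply]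
  omega

theorem EQ.mul {A B : ℕ} {f g : MvPolynomial (Fin 2) k} (hf : EQ A f) (hg : EQ B g) :
    EQ (A + B) (f * g) := by
  intro m hm
  obtain ⟨a, b, rfl, ha, hb⟩ := exists_mul hm
  have h1 := hf a ha
  have h2 := hg b hb
  simp only [Finsupp.add_apply]
  omega

theorem LT.add {A : ℕ} {f g : MvPolynomial (Fin 2) k} (hf : LT A f) (hg : LT A g) :
    LT A (f + g) := by
  intro m hm
  by_cases h : coeff m f = 0
  · rw [coeff_add, h, zero_add] at hm
    exact hg m hm
  · exact hf m h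

theorem one_LE : LE 0 (1 : MvPolynomial (Fin 2) k) := by
  classical
  intro m hm
  rw [coeff_one] at hm
  by_cases h : (0 : Fin 2 →₀ ℕ) = m
  · rw [← h]; simp
  · rw [if_neg h] at hm; exact absurd rfl hm

theorem LE.pow {A : ℕ} {f : MvPolynomial (Fin 2) k} (hf : LE A f) (l : ℕ) :
    LE (l * A) (f ^ l) := by
  induction l with
  | zero => rw [zero_mul, pow_zero]; exact one_LE
  | succ l ih =>
    rw [pow_succ, Nat.succ_mul]
    exact LE.mul ih hf

theorem EQ.pow {A : ℕ} {f : MvPolynomial (Fin 2) k} (hf : EQ A f) (l : ℕ) :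
    EQ (l * A) (f ^ l) := by
  induction l with
  | zero =>
    rw [zero_mul, pow_zero]
    intro m hm
    exact Nat.le_zero.1 (one_LE m hm)
  | succ l ih =>
    rw [pow_succ, Nat.succ_mul]
    exact EQ.mul ih hf

theorem lx_EQ (B : ℕ) (f : MvPolynomial (Fin 2) k) : EQ B (lx B f) := by
  intro m hm
  rw [coeff_lx] at hm
  by_contra h
  rw [if_neg h] at hm
  exact hm rfl

theorem lx_LT {B : ℕ} {f : MvPolynomial (Fin 2) k} (hf : LE B f) : LT B (f - lx B f) := by
  intro m hm
  rw [coeff_sub, coeff_lx] at hm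
  by_cases h : m 0 = B
  · rw [if_pos h, sub_self] at hm
    exact absurd rfl hm
  · rw [if_neg h, sub_zero] at hm
    exact lt_of_le_of_ne (hf m hm) h

theorem pow_LT {B : ℕ} {f : MvPolynomial (Fin 2) k} (hf : LE B f) (l : ℕ) :
    LT (l * B) (f ^ l - (lx B f) ^ l) := by
  induction l with
  | zero =>
    intro m hm
    rw [pow_zero, pow_zero, sub_self, coeff_zero] at hm
    exact absurd rfl hm
  | succ l ih =>
    have e1 : f ^ (l + 1) - (lx B f) ^ (l + 1) =
        f ^ l * (f - lx B f) + lx B f * (f ^ l - (lx B f) ^ l) := by ring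
    rw [e1, Nat.succ_mul]
    apply LT.add
    · exact LE.mul_lt (LE.pow hf l) (lx_LT hf)
    · rw [add_comm (l * B) B]
      exact LE.mul_lt (fun m hm => (lx_EQ B f m hm).le) ih

theorem J_lx {f g : MvPolynomial (Fin 2) k} {c : k} (hJ : J f g = C c) {B E : ℕ}
    (hf : LE B f) (hg : LE E g) (hBE : 2 ≤ B + E) : J (lx B f) (lx E g) = 0 := by
  have h0 : (X 0 * X 1 * J (lx B f) (lx E g) : MvPolynomial (Fin 2) k) = 0 := by
    ext m
    rw [coeff_zero, coeff_XXJ]
    by_cases hm : m 0 = B + E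
    · have h1 := coeff_XXJ f g m
      rw [hJ, coeff_XX_C, if_neg] at h1
      · rw [h1]
        apply Finset.sum_congr rfl
        rintro ⟨a, b⟩ hx
        rw [Finset.HasAntidiagonal.mem_antidiagonal] at hx
        simp only at hx ⊢
        congr 1
        rw [coeff_lx, coeff_lx]
        by_cases ha : coeff a f = 0
        · rw [ha]; simp
        by_cases hb : coeff b g = 0
        · rw [hb]; simp
        have h2 := hf a ha
        have h3 := hg b hb
        have h4 : a 0 + b 0 = B + E := by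
          rw [← hm, ← hx]; simp
        rw [if_pos (by omega), if_pos (by omega)]
      · intro h
        rw [h, e_zero] at hm
        omega
    · apply Finset.sum_eq_zero
      rintro ⟨a, b⟩ hx
      rw [Finset.HasAntidiagonal.mem_antidiagonal] at hx
      simp only at hx ⊢
      rw [coeff_lx, coeff_lx]
      by_cases ha : a 0 = B
      · by_cases hb : b 0 = E
        · exfalso
          apply hm
          rw [← hx, ← ha, ← hb]; simp
        · rw [if_neg hb, mul_zero, mul_zero]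
      · rw [if_neg ha, zero_mul, mul_zero]
  rcases mul_eq_zero.1 h0 with h | h
  · rcases mul_eq_zero.1 h with h | h
    · exact absurd h (X_ne_zero 0)
    · exact absurd h (X_ne_zero 1)
  · exact h

theorem J_pow_right (f g : MvPolynomial (Fin 2) k) (l : ℕ) (h : J f g = 0) :
    J g (f ^ l) = 0 := by
  have h1 : J g (f ^ l) = - (C (l : k) * f ^ (l - 1) * J f g) := by
    unfold J
    rw [Derivation.leibniz_pow, Derivation.leibniz_pow]
    simp only [nsmul_eq_mul, smul_eq_mul]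
    rw [← C_eq_coe_nat]
    ring
  rw [h1, h, mul_zero, neg_zero]

theorem Bad.two [CharZero k] {f g : MvPolynomial (Fin 2) k} (h : Bad f g) :
    2 ≤ degreeOf 0 f := by
  obtain ⟨⟨i, hi, hi'⟩, _⟩ := Bad.pure h
  have := le_deg f _ hi'
  rw [e_zero] at this
  omega

theorem lx_ne {f : MvPolynomial (Fin 2) k} (hf : f ≠ 0) : lx (degreeOf 0 f) f ≠ 0 := by
  intro h
  have h1 : (0 : ℕ) < degreeOf 0 f ∨ degreeOf 0 f = 0 := by omega
  rcases h1 with h1 | h1
  · have h2 : degreeOf 0 f < degreeOf 0 f := by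
      rw [degreeOf_lt_iff h1]
      intro m hm
      have h3 := lx_LT (le_deg f) m
      rw [h, sub_zero] at h3
      exact h3 (mem_support_iff.1 hm)
    exact lt_irrefl _ h2
  · apply hf
    ext m
    rw [coeff_zero]
    by_contra h2
    have h3 := lx_LT (le_deg f) m
    rw [h, sub_zero, h1] at h3
    exact absurd (h3 h2) (Nat.not_lt_zero _)

/-- Claim 1 -/
theorem reduce (hP : S_P1.{u}) [CharZero k] {f g : MvPolynomial (Fin 2) k} (hB : Bad f g)
    (hd : degreeOf 0 f ∣ degreeOf 0 g) :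
    ∃ g', Bad f g' ∧ degreeOf 0 g' < degreeOf 0 g := by
  obtain ⟨l, hl⟩ := hd
  have hB2 := Bad.two hB
  have hE2 := Bad.two (Bad.symm hB)
  obtain ⟨⟨c, hc, hJ⟩, hG⟩ := hB
  have hf0 : f ≠ 0 := by
    rintro rfl
    rw [degreeOf_zero] at hB2
    omega
  have hJl := J_lx hJ (le_deg f) (le_deg g) (by omega)
  have hE' : (degreeOf 0 g : ℤ) ≠ 0 := by
    have : degreeOf 0 g ≠ 0 := by omega
    exact_mod_cast this
  have hlm : l * degreeOf 0 f = degreeOf 0 g := by rw [hl]; ring
  obtain ⟨κ, hκ⟩ := hP k (lx (degreeOf 0 g) g) ((lx (degreeOf 0 f) f) ^ l) 1 0 (degreeOf 0 g) hE'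
    (fun m hm => by rw [lx_EQ _ _ m hm]; ring)
    (fun m hm => by
      have h1 := EQ.pow (lx_EQ (degreeOf 0 f) f) l m hm
      rw [h1, hlm]; ring)
    (J_pow_right _ _ _ hJl) (pow_ne_zero _ (lx_ne hf0))
  have hP' : Polynomial.aeval f (Polynomial.C κ * Polynomial.X ^ l) = C κ * f ^ l := by
    rw [map_mul, map_pow, Polynomial.aeval_X, Polynomial.aeval_C]
    rfl
  refine ⟨g - C κ * f ^ l, ⟨⟨c, hc, ?_⟩, fun h => hG ?_⟩, ?_⟩
  · rw [← hP', J_poly, hJ]
  · have hfa : f ∈ Algebra.adjoin k {f, g} := Algebra.subset_adjoin (by simp)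
    have hga : g ∈ Algebra.adjoin k {f, g} := Algebra.subset_adjoin (by simp)
    exact Good.of_mem h hfa (Subalgebra.sub_mem _ hga
      (Subalgebra.mul_mem _ (Subalgebra.algebraMap_mem _ _) (Subalgebra.pow_mem _ hfa _)))
  · rw [degreeOf_lt_iff (by omega)]
    have e1 : g - C κ * f ^ l = (g - lx (degreeOf 0 g) g) +
        (- C κ) * (f ^ l - (lx (degreeOf 0 f) f) ^ l) := by
      rw [hκ]; ring
    have h1 : LT (degreeOf 0 g) (g - C κ * f ^ l) := by
      rw [e1]
      apply LT.add (lx_LT (le_deg g))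
      have h2 := pow_LT (le_deg f) l
      rw [hlm] at h2
      intro m hm
      apply h2 m
      intro h3
      apply hm
      rw [← C_neg, coeff_C_mul, h3, mul_zero]
    intro m hm
    exact h1 m (mem_support_iff.1 hm)

theorem top_deg {f : MvPolynomial (Fin 2) k} (hf : f ≠ 0) (d : ℤ) (hd : d = degreeOf 0 f) :
    Top 1 0 d f := by
  subst hd
  refine ⟨fun m hm => ?_, ?_⟩
  · have := le_deg f m hm
    have h2 : ((m 0 : ℕ) : ℤ) ≤ degreeOf 0 f := by exact_mod_cast this
    linarith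
  · by_contra hn
    apply lx_ne hf
    ext m
    rw [coeff_zero, coeff_lx]
    by_cases h : m 0 = degreeOf 0 f
    · rw [if_pos h]
      by_contra h2
      exact hn ⟨m, h2, by rw [h]; ring⟩
    · rw [if_neg h]

theorem Bad.ne [CharZero k] {f g : MvPolynomial (Fin 2) k} (h : Bad f g) : f ≠ 0 := by
  have := Bad.two h
  rintro rfl
  rw [degreeOf_zero] at this
  omega

/-- Claim 2 -/
theorem claim2 (hP : S_P1.{u}) [CharZero k] (K : ℕ) : ∀ (n : ℕ) (f g : MvPolynomial (Fin 2) k),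
    degreeOf 0 f + degreeOf 0 g ≤ n → Bad f g → Nat.gcd (degreeOf 0 f) (degreeOf 0 g) ≤ K →
    ∃ (f' g' : MvPolynomial (Fin 2) k) (a b m : ℕ), Bad f' g' ∧ 2 ≤ a ∧ 2 ≤ b ∧
      Nat.Coprime a b ∧ 1 ≤ m ∧ m ≤ K ∧ Top 1 0 (a * m) f' ∧ Top 1 0 (b * m) g' := by
  intro n
  induction n with
  | zero =>
    intro f g h hB _
    have := Bad.two hB
    omega
  | succ n ih =>
    intro f g h hB hK
    have hB2 := Bad.two hB
    have hE2 := Bad.two (Bad.symm hB)
    by_cases h1 : degreeOf 0 f ∣ degreeOf 0 g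
    · obtain ⟨g', hg', hlt⟩ := reduce hP hB h1
      refine ih f g' (by omega) hg' ?_
      rw [Nat.gcd_eq_left h1] at hK
      exact le_trans (Nat.gcd_le_left _ (by omega)) hK
    by_cases h2 : degreeOf 0 g ∣ degreeOf 0 f
    · obtain ⟨f', hf', hlt⟩ := reduce hP (Bad.symm hB) h2
      refine ih g f' (by omega) hf' ?_
      rw [Nat.gcd_eq_right h2] at hK
      exact le_trans (Nat.gcd_le_left _ (by omega)) hK
    obtain ⟨a, ha⟩ := Nat.gcd_dvd_left (degreeOf 0 f) (degreeOf 0 g)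
    obtain ⟨b, hb⟩ := Nat.gcd_dvd_right (degreeOf 0 f) (degreeOf 0 g)
    have hm : 0 < Nat.gcd (degreeOf 0 f) (degreeOf 0 g) := Nat.gcd_pos_of_pos_left _ (by omega)
    have hab : Nat.Coprime a b := by
      have h3 := Nat.coprime_div_gcd_div_gcd hm
      have ha' : degreeOf 0 f / Nat.gcd (degreeOf 0 f) (degreeOf 0 g) = a :=
        Nat.div_eq_of_eq_mul_right hm ha
      have hb' : degreeOf 0 g / Nat.gcd (degreeOf 0 f) (degreeOf 0 g) = b :=
        Nat.div_eq_of_eq_mul_right hm hb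
      rw [ha', hb'] at h3
      exact h3
    have ha2 : 2 ≤ a := by
      rcases a with _ | _ | a
      · rw [mul_zero] at ha; omega
      · exfalso
        apply h1
        rw [zero_add, mul_one] at ha
        conv_lhs => rw [ha]
        exact Nat.gcd_dvd_right _ _
      · omega
    have hb2 : 2 ≤ b := by
      rcases b with _ | _ | b
      · rw [mul_zero] at hb; omega
      · exfalso
        apply h2
        rw [zero_add, mul_one] at hb
        conv_lhs => rw [hb]
        exact Nat.gcd_dvd_left _ _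
      · omega
    refine ⟨f, g, a, b, Nat.gcd (degreeOf 0 f) (degreeOf 0 g), hB, ha2, hb2, hab, hm, hK,
      top_deg (Bad.ne hB) _ ?_, top_deg (Bad.ne (Bad.symm hB)) _ ?_⟩
    · have h3 : a * Nat.gcd (degreeOf 0 f) (degreeOf 0 g) = degreeOf 0 f := by
        conv_rhs => rw [ha]
        ring
      exact_mod_cast h3
    · have h3 : b * Nat.gcd (degreeOf 0 f) (degreeOf 0 g) = degreeOf 0 g := by
        conv_rhs => rw [hb]
        ring
      exact_mod_cast h3

/-- Claim 3 -/
theorem claim3 (hP : S_P1.{u}) [CharZero k] (K : ℕ) (f : MvPolynomial (Fin 2) k)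
    (hK : ∀ d, d ∣ degreeOf 0 f → d < degreeOf 0 f → d ≤ K) :
    ∀ (n : ℕ) (g : MvPolynomial (Fin 2) k), degreeOf 0 g ≤ n → Bad f g →
    ∃ (f' g' : MvPolynomial (Fin 2) k) (a b m : ℕ), Bad f' g' ∧ 2 ≤ a ∧ 2 ≤ b ∧
      Nat.Coprime a b ∧ 1 ≤ m ∧ m ≤ K ∧ Top 1 0 (a * m) f' ∧ Top 1 0 (b * m) g' := by
  intro n
  induction n with
  | zero =>
    intro g h hB
    have := Bad.two (Bad.symm hB)
    omega
  | succ n ih =>
    intro g h hB
    have hB2 := Bad.two hB
    by_cases h1 : degreeOf 0 f ∣ degreeOf 0 g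
    · obtain ⟨g', hg', hlt⟩ := reduce hP hB h1
      exact ih g' (by omega) hg'
    · refine claim2 hP K _ f g le_rfl hB (hK _ (Nat.gcd_dvd_left _ _) ?_)
      refine lt_of_le_of_ne (Nat.gcd_le_left _ (by omega)) fun h2 => h1 ?_
      conv_lhs => rw [← h2]
      exact Nat.gcd_dvd_right _ _

theorem norm_ : S_P1.{u} → S_NORM.{u} := by
  intro hP k _ _ f g K hB h
  rcases h with h | h
  · exact claim2 hP K _ f g le_rfl hB h
  · exact claim3 hP K f h _ g le_rfl hB

end Pool.Agent.W216.J6
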