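import Pool.Agent.W443.J6.Stms

/-!
# Similarity of the Newton polygons
-/

set_option autoImplicit false

open MvPolynomial Pool.Agent.H938R2.JC Pool.Agent.W443.J5 Pool.Agent.W443.J6

namespace Pool.Agent.W216.J6

universe u

variable {k : Type u} [Field k]

theorem Bad.symm {f g : MvPolynomial (Fin 2) k} (h : Bad f g) : Bad g f := by
  obtain ⟨⟨c, hc, hJ⟩, hG⟩ := h
  refine ⟨⟨-c, neg_ne_zero.2 hc, ?_⟩, fun h => hG h.symm⟩
  rw [J_swap, hJ, C_neg]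

theorem Bad.pure [CharZero k] {f g : MvPolynomial (Fin 2) k} (h : Bad f g) :
    (∃ i, 2 ≤ i ∧ coeff (e i 0) f ≠ 0) ∧ (∃ j, 2 ≤ j ∧ coeff (e 0 j) f ≠ 0) := by
  obtain ⟨⟨c, hc, hJ⟩, hG⟩ := h
  constructor
  · by_contra hn
    refine hG (line hJ hc fun i hi => ?_)
    by_contra h0
    exact hn ⟨i, hi, h0⟩
  · by_contra hn
    refine hG (line' hJ hc fun i hi => ?_)
    by_contra h0
    exact hn ⟨i, hi, h0⟩

theorem Bad.pos [CharZero k] {f g : MvPolynomial (Fin 2) k} (h : Bad f g) (w0 w1 d : ℤ)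
    (hw : 0 < w0 ∨ 0 < w1) (hT : Top w0 w1 d f) : 0 < d := by
  obtain ⟨⟨i, hi, hi'⟩, ⟨j, hj, hj'⟩⟩ := Bad.pure h
  rcases hw with hw | hw
  · have h1 := hT.1 _ hi'
    rw [e_zero, e_one] at h1
    have h2 : 0 < w0 * (i : ℤ) := mul_pos hw (by exact_mod_cast (by omega : 0 < i))
    push_cast at h1
    linarith
  · have h1 := hT.1 _ hj'
    rw [e_zero, e_one] at h1
    have h2 : 0 < w1 * (j : ℤ) := mul_pos hw (by exact_mod_cast (by omega : 0 < j))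
    push_cast at h1
    linarith

theorem exists_top {f : MvPolynomial (Fin 2) k} (hf : f.support.Nonempty) (w0 w1 : ℤ) :
    ∃ d, Top w0 w1 d f := by
  obtain ⟨m, hm, hmax⟩ := Finset.exists_max_image f.support
    (fun m => w0 * (m 0 : ℤ) + w1 * (m 1 : ℤ)) hf
  refine ⟨w0 * (m 0 : ℤ) + w1 * (m 1 : ℤ), fun m' hm' => hmax m' (mem_support_iff.2 hm'),
    m, mem_support_iff.1 hm, rfl⟩

theorem exists_low {f : MvPolynomial (Fin 2) k} (hf : f.support.Nonempty) (w0 w1 : ℤ) :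
    ∃ p q, Low w0 w1 p q f := by
  obtain ⟨d, hd1, m0, hm0, hm0'⟩ := exists_top hf w0 w1
  obtain ⟨m, hm, hmin⟩ := Finset.exists_min_image
    (f.support.filter fun m => w0 * (m 0 : ℤ) + w1 * (m 1 : ℤ) = d) (fun m => m 1)
    ⟨m0, by rw [Finset.mem_filter, mem_support_iff]; exact ⟨hm0, hm0'⟩⟩
  rw [Finset.mem_filter, mem_support_iff] at hm
  refine ⟨m 0, m 1, by rw [← eq_e]; exact hm.1, fun m' hm' => ?_⟩
  rw [hm.2]
  rcases lt_or_eq_of_le (hd1 m' hm') with h | h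
  · exact Or.inl h
  · right
    refine ⟨h, ?_⟩
    exact hmin m' (by rw [Finset.mem_filter, mem_support_iff]; exact ⟨hm', h⟩)

theorem exists_upp {f : MvPolynomial (Fin 2) k} (hf : f.support.Nonempty) (w0 w1 : ℤ) :
    ∃ p q, Upp w0 w1 p q f := by
  obtain ⟨d, hd1, m0, hm0, hm0'⟩ := exists_top hf w0 w1
  obtain ⟨m, hm, hmax⟩ := Finset.exists_max_image
    (f.support.filter fun m => w0 * (m 0 : ℤ) + w1 * (m 1 : ℤ) = d) (fun m => m 1)
    ⟨m0, by rw [Finset.mem_filter, mem_support_iff]; exact ⟨hm0, hm0'⟩⟩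
  rw [Finset.mem_filter, mem_support_iff] at hm
  refine ⟨m 0, m 1, by rw [← eq_e]; exact hm.1, fun m' hm' => ?_⟩
  rw [hm.2]
  rcases lt_or_eq_of_le (hd1 m' hm') with h | h
  · exact Or.inl h
  · right
    refine ⟨h, ?_⟩
    exact hmax m' (by rw [Finset.mem_filter, mem_support_iff]; exact ⟨hm', h⟩)

theorem Low.top {f : MvPolynomial (Fin 2) k} {w0 w1 : ℤ} {p q : ℕ} (h : Low w0 w1 p q f) :
    Top w0 w1 (w0 * p + w1 * q) f := by
  refine ⟨fun m hm => ?_, e p q, h.1, by simp⟩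
  rcases h.2 m hm with h1 | h1
  · exact h1.le
  · exact h1.1.le

theorem Upp.top {f : MvPolynomial (Fin 2) k} {w0 w1 : ℤ} {p q : ℕ} (h : Upp w0 w1 p q f) :
    Top w0 w1 (w0 * p + w1 * q) f := by
  refine ⟨fun m hm => ?_, e p q, h.1, by simp⟩
  rcases h.2 m hm with h1 | h1
  · exact h1.le
  · exact h1.1.le

/-- tilting the direction -/
theorem Low.tilt {f : MvPolynomial (Fin 2) k} {w0 w1 : ℤ} {p q : ℕ} (h : Low w0 w1 p q f)
    (M : ℤ) (hM : (q : ℤ) ≤ M) :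
    Top (M * w0) (M * w1 - 1) (M * (w0 * p + w1 * q) - q) f := by
  refine ⟨fun m hm => ?_, e p q, h.1, by simp; ring⟩
  have hM0 : 0 ≤ M := le_trans (Int.natCast_nonneg q) hM
  have e1 : M * w0 * (m 0 : ℤ) + (M * w1 - 1) * (m 1 : ℤ) =
      M * (w0 * (m 0 : ℤ) + w1 * (m 1 : ℤ)) - (m 1 : ℤ) := by ring
  rw [e1]
  have h0 : (0 : ℤ) ≤ (m 1 : ℤ) := Int.natCast_nonneg _
  rcases h.2 m hm with h1 | ⟨h1, h2⟩
  · have h3 : M * (w0 * (m 0 : ℤ) + w1 * (m 1 : ℤ)) ≤ M * (w0 * (p : ℤ) + w1 * (q : ℤ) - 1) :=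
      mul_le_mul_of_nonneg_left (by linarith [Int.add_one_le_iff.2 h1]) hM0
    have h4 : M * (w0 * (p : ℤ) + w1 * (q : ℤ) - 1) = M * (w0 * (p : ℤ) + w1 * (q : ℤ)) - M := by
      ring
    linarith
  · rw [h1]
    have : (q : ℤ) ≤ (m 1 : ℤ) := by exact_mod_cast h2
    linarith

theorem Upp.tilt {f : MvPolynomial (Fin 2) k} {w0 w1 : ℤ} {p q : ℕ} (h : Upp w0 w1 p q f)
    (M : ℤ) (hM0 : 0 ≤ M) (hM : ∀ m, coeff m f ≠ 0 → (m 1 : ℤ) ≤ M) :
    Top (M * w0) (M * w1 + 1) (M * (w0 * p + w1 * q) + q) f := by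
  refine ⟨fun m hm => ?_, e p q, h.1, by simp; ring⟩
  have e1 : M * w0 * (m 0 : ℤ) + (M * w1 + 1) * (m 1 : ℤ) =
      M * (w0 * (m 0 : ℤ) + w1 * (m 1 : ℤ)) + (m 1 : ℤ) := by ring
  rw [e1]
  have h0 : (0 : ℤ) ≤ (q : ℤ) := Int.natCast_nonneg _
  rcases h.2 m hm with h1 | ⟨h1, h2⟩
  · have h3 : M * (w0 * (m 0 : ℤ) + w1 * (m 1 : ℤ)) ≤ M * (w0 * (p : ℤ) + w1 * (q : ℤ) - 1) :=
      mul_le_mul_of_nonneg_left (by linarith [Int.add_one_le_iff.2 h1]) hM0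
    have h4 : M * (w0 * (p : ℤ) + w1 * (q : ℤ) - 1) = M * (w0 * (p : ℤ) + w1 * (q : ℤ)) - M := by
      ring
    have := hM m hm
    linarith
  · rw [h1]
    have : (m 1 : ℤ) ≤ (q : ℤ) := by exact_mod_cast h2
    linarith

theorem split_nat {a b p p' : ℕ} (ha : 1 ≤ a) (hab : Nat.Coprime a b) (h : b * p = a * p') :
    ∃ r, p = a * r ∧ p' = b * r := by
  have h1 : a ∣ b * p := ⟨p', h⟩
  obtain ⟨r, rfl⟩ := hab.dvd_of_dvd_mul_left h1
  refine ⟨r, rfl, ?_⟩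
  have : a * p' = a * (b * r) := by rw [← h]; ring
  exact Nat.eq_of_mul_eq_mul_left ha this

theorem sim_of {f g : MvPolynomial (Fin 2) k} (a b : ℕ) (ha : 1 ≤ a)
    (hab : Nat.Coprime a b) (hg : g.support.Nonempty)
    (hpos : ∀ w0 w1 d, (0 < w0 ∨ 0 < w1) → Top w0 w1 d f → 0 < d)
    (H : ∀ w0 w1 d d', (0 < w0 ∨ 0 < w1) → Top w0 w1 d f → Top w0 w1 d' g →
      (b : ℤ) * d = a * d') : Sim a b f g := by
  have ha0 : (a : ℤ) ≠ 0 := by exact_mod_cast (by omega : a ≠ 0)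
  have ha1 : (0 : ℤ) < (a : ℤ) := by exact_mod_cast ha
  refine ⟨?_, ?_, ?_⟩
  · intro w0 w1 d hw hT
    obtain ⟨d', hd'⟩ := exists_top hg w0 w1
    have h1 := H w0 w1 d d' hw hT hd'
    have h2 : (a : ℤ) ∣ b * d := ⟨d', h1⟩
    have h3 : IsCoprime (a : ℤ) (b : ℤ) := Nat.isCoprime_iff_coprime.2 hab
    obtain ⟨n, rfl⟩ := h3.dvd_of_dvd_mul_left h2
    have h4 : d' = b * n := by
      apply mul_left_cancel₀ ha0
      rw [← h1]; ring
    refine ⟨n, ?_, rfl, h4 ▸ hd'⟩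
    have h5 := hpos w0 w1 _ hw hT
    exact pos_of_mul_pos_right h5 ha1.le
  · intro w0 w1 hw p q hL
    obtain ⟨p', q', hL'⟩ := exists_low hg w0 w1
    have h1 := H w0 w1 _ _ (Or.inl hw) (Low.top hL) (Low.top hL')
    set M : ℤ := 1 + (q : ℤ) + (q' : ℤ) with hM
    have hq0 : (0 : ℤ) ≤ (q : ℤ) := Int.natCast_nonneg _
    have hq0' : (0 : ℤ) ≤ (q' : ℤ) := Int.natCast_nonneg _
    have hMw : 0 < M * w0 := mul_pos (by linarith) hw
    have h2 := H (M * w0) (M * w1 - 1) _ _ (Or.inl hMw) (Low.tilt hL M (by linarith))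
      (Low.tilt hL' M (by linarith))
    have h3 : (b : ℤ) * (q : ℤ) = a * (q' : ℤ) := by linear_combination M * h1 - h2
    have h4 : (b : ℤ) * (p : ℤ) = a * (p' : ℤ) := by
      apply mul_left_cancel₀ hw.ne'
      linear_combination h1 - w1 * h3
    obtain ⟨r, hr, hr'⟩ := split_nat ha hab (by exact_mod_cast h4 : b * p = a * p')
    obtain ⟨s, hs, hs'⟩ := split_nat ha hab (by exact_mod_cast h3 : b * q = a * q')
    exact ⟨r, s, hr, hs, hr' ▸ hs' ▸ hL'⟩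
  · intro w0 w1 hw p q hL
    obtain ⟨p', q', hL'⟩ := exists_upp hg w0 w1
    have h1 := H w0 w1 _ _ (Or.inl hw) (Upp.top hL) (Upp.top hL')
    obtain ⟨M, hM1, hM2, hM3⟩ : ∃ M : ℤ, 1 ≤ M ∧ (∀ m, coeff m f ≠ 0 → (m 1 : ℤ) ≤ M) ∧
        (∀ m, coeff m g ≠ 0 → (m 1 : ℤ) ≤ M) := by
      refine ⟨1 + ((f.support.sup fun m => m 1 : ℕ) : ℤ) + ((g.support.sup fun m => m 1 : ℕ) : ℤ),
        ?_, ?_, ?_⟩
      · have h1 : (0 : ℤ) ≤ ((f.support.sup fun m => m 1 : ℕ) : ℤ) := Int.natCast_nonneg _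
        have h2 : (0 : ℤ) ≤ ((g.support.sup fun m => m 1 : ℕ) : ℤ) := Int.natCast_nonneg _
        linarith
      · intro m hm
        have h1 : m 1 ≤ f.support.sup fun m => m 1 :=
          Finset.le_sup (f := fun m : Fin 2 →₀ ℕ => m 1) (mem_support_iff.2 hm)
        have h2 : (m 1 : ℤ) ≤ ((f.support.sup fun m => m 1 : ℕ) : ℤ) := by exact_mod_cast h1
        have h3 : (0 : ℤ) ≤ ((g.support.sup fun m => m 1 : ℕ) : ℤ) := Int.natCast_nonneg _
        linarith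
      · intro m hm
        have h1 : m 1 ≤ g.support.sup fun m => m 1 :=
          Finset.le_sup (f := fun m : Fin 2 →₀ ℕ => m 1) (mem_support_iff.2 hm)
        have h2 : (m 1 : ℤ) ≤ ((g.support.sup fun m => m 1 : ℕ) : ℤ) := by exact_mod_cast h1
        have h3 : (0 : ℤ) ≤ ((f.support.sup fun m => m 1 : ℕ) : ℤ) := Int.natCast_nonneg _
        linarith
    have hMw : 0 < M * w0 := mul_pos (by linarith) hw
    have h2 := H (M * w0) (M * w1 + 1) _ _ (Or.inl hMw) (Upp.tilt hL M (by linarith) hM2)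
      (Upp.tilt hL' M (by linarith) hM3)
    have h3 : (b : ℤ) * (q : ℤ) = a * (q' : ℤ) := by linear_combination h2 - M * h1
    have h4 : (b : ℤ) * (p : ℤ) = a * (p' : ℤ) := by
      apply mul_left_cancel₀ hw.ne'
      linear_combination h1 - w1 * h3
    obtain ⟨r, hr, hr'⟩ := split_nat ha hab (by exact_mod_cast h4 : b * p = a * p')
    obtain ⟨s, hs, hs'⟩ := split_nat ha hab (by exact_mod_cast h3 : b * q = a * q')
    exact ⟨r, s, hr, hs, hr' ▸ hs' ▸ hL'⟩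

theorem sim : S_RAT.{u} → S_SIM.{u} := by
  intro hR k _ _ f g hB a b ha hb hab v0 v1 n hv hTf hTg
  have hB' : Bad g f := Bad.symm hB
  have hfs : f.support.Nonempty := by
    obtain ⟨⟨i, _, hi⟩, _⟩ := Bad.pure hB
    exact ⟨_, mem_support_iff.2 hi⟩
  have hgs : g.support.Nonempty := by
    obtain ⟨⟨i, _, hi⟩, _⟩ := Bad.pure hB'
    exact ⟨_, mem_support_iff.2 hi⟩
  have hn : n ≠ 0 := by
    rintro rfl
    have := Bad.pos hB v0 v1 _ hv hTf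
    simp at this
  have H : ∀ w0 w1 d d', (0 < w0 ∨ 0 < w1) → Top w0 w1 d f → Top w0 w1 d' g →
      (b : ℤ) * d = a * d' := by
    intro w0 w1 d d' hw hd hd'
    have h1 := hR k f g hB w0 w1 v0 v1 d d' (a * n) (b * n) hw hv hd hd' hTf hTg
    apply mul_right_cancel₀ hn
    linear_combination h1
  refine ⟨sim_of a b ha hab hgs (fun w0 w1 d hw hd => Bad.pos hB w0 w1 d hw hd) H,
    sim_of b a hb hab.symm hfs (fun w0 w1 d hw hd => Bad.pos hB' w0 w1 d hw hd) ?_⟩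
  intro w0 w1 d d' hw hd hd'
  exact (H w0 w1 d' d hw hd' hd).symm

end Pool.Agent.W216.J6
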